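import Pool.Agent.Q27.QR.Main

/-!
# MP_768c9c_nt: the question of Kahane and Saias excludes the Riemann hypothesis, and even that
`ζ` has only finitely many zeros with real part `> 1/2 + η₀`
-/

set_option autoImplicit false

namespace Pool.Agent.Results.MP_768c9c_nt.ExcludesQuasiRH

open Filter Topology Finset

/-- `f` (only its values at `n ≥ 1` matter) is a CMO function: completely multiplicative, with
`∑ f(n)` convergent to `0` -/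
structure IsCMO (f : ℕ → ℂ) : Prop where
  one : f 1 = 1
  mul : ∀ m n : ℕ, 1 ≤ m → 1 ≤ n → f (m * n) = f m * f n
  sum_zero : Tendsto (fun N : ℕ => ∑ n ∈ Icc 1 N, f n) atTop (𝓝 0)

/-- the partial sum `S_f(x) = ∑_{n ≤ x} f(n)` -/
noncomputable def partialSum (f : ℕ → ℂ) (x : ℝ) : ℂ := ∑ n ∈ Icc 1 ⌊x⌋₊, f n

/-- `S_f(x) = Ω(x^(-1/2))`: for some `c > 0`, `|S_f(x)| ≥ c x^(-1/2)` for arbitrarily large `x` -/
def OmegaHalf (f : ℕ → ℂ) : Prop :=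
  ∃ c : ℝ, 0 < c ∧ ∀ X : ℝ, ∃ x : ℝ, X ≤ x ∧ 0 < x ∧ c / Real.sqrt x ≤ ‖partialSum f x‖

/-- the affirmative answer to Q1 for the CMO functions with `|f(n)| ≤ n^(-1+ε)` for all `n ≥ 1`
(the affirmative answer to Q1 itself implies this for every `ε`) -/
def KahaneSaias (ε : ℝ) : Prop :=
  ∀ f : ℕ → ℂ, IsCMO f → (∀ n : ℕ, 1 ≤ n → ‖f n‖ ≤ (n : ℝ) ^ (-1 + ε)) → OmegaHalf f

/-- the zeros of `ζ` with real part `> θ` -/
def zerosRight (θ : ℝ) : Set ℂ := {s : ℂ | riemannZeta s = 0 ∧ θ < s.re}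

theorem cmo_of_concl {ε c : ℝ} (hc : 0 < c) (h : Pool.Agent.Q27.CM.ConclB ε c) :
    ∃ (f : ℕ → ℝ) (C : ℝ), IsCMO (fun n => (f n : ℂ)) ∧
      (∀ n : ℕ, 1 ≤ n → |f n| ≤ (n : ℝ) ^ (-1 + ε)) ∧ 0 < C ∧
      ∀ x : ℝ, 1 ≤ x → ‖partialSum (fun n => (f n : ℂ)) x‖ ≤ C * x ^ (-(1 / 2 : ℝ) - c) := by
  obtain ⟨f, h1, hm, hf, C, hC, hb⟩ := h
  have hcast : ∀ N : ℕ, ∑ n ∈ Icc 1 N, ((f n : ℝ) : ℂ) = ((∑ n ∈ Icc 1 N, f n : ℝ) : ℂ) :=
    fun N => (Complex.ofReal_sum _ _).symm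
  refine ⟨f, C * 2 ^ (1 / 2 + c), ⟨?_, ?_, ?_⟩, hf, by positivity, fun x hx => ?_⟩
  · show ((f 1 : ℝ) : ℂ) = 1
    rw [h1, Complex.ofReal_one]
  · intro m n hm1 hn1
    show ((f (m * n) : ℝ) : ℂ) = ((f m : ℝ) : ℂ) * ((f n : ℝ) : ℂ)
    rw [hm m n hm1 hn1, Complex.ofReal_mul]
  · have h2 : Tendsto (fun N : ℕ => C * (N : ℝ) ^ (-(1 / 2 : ℝ) - c)) atTop (𝓝 0) := by
      have h3 : Tendsto (fun y : ℝ => y ^ (-(1 / 2 + c))) atTop (𝓝 0) :=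
        tendsto_rpow_neg_atTop (by linarith)
      have h4 := (h3.comp tendsto_natCast_atTop_atTop).const_mul C
      rw [mul_zero] at h4
      refine h4.congr fun N => ?_
      simp only [Function.comp_apply]
      congr 2
      ring
    rw [tendsto_zero_iff_norm_tendsto_zero]
    refine squeeze_zero' (Eventually.of_forall fun N => norm_nonneg _) ?_ h2
    filter_upwards [eventually_ge_atTop 1] with N hN
    rw [hcast, Complex.norm_real]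
    exact hb N hN
  · have hf1 : 1 ≤ ⌊x⌋₊ := (Nat.one_le_floor_iff x).2 hx
    have hx0 : (0 : ℝ) < x := by linarith
    have hfl : x / 2 ≤ (⌊x⌋₊ : ℝ) := by
      have h3 := Nat.lt_floor_add_one x
      have h4 : (1 : ℝ) ≤ (⌊x⌋₊ : ℝ) := by exact_mod_cast hf1
      linarith
    unfold partialSum
    rw [hcast, Complex.norm_real]
    refine (hb _ hf1).trans ?_
    have h5 : ((⌊x⌋₊ : ℕ) : ℝ) ^ (-(1 / 2 : ℝ) - c) ≤ (x / 2) ^ (-(1 / 2 : ℝ) - c) :=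
      Real.rpow_le_rpow_of_nonpos (by positivity) hfl (by linarith)
    have h6 : (x / 2) ^ (-(1 / 2 : ℝ) - c) = 2 ^ (1 / 2 + c) * x ^ (-(1 / 2 : ℝ) - c) := by
      rw [div_eq_mul_inv, Real.mul_rpow hx0.le (by positivity), Real.inv_rpow (by norm_num),
        ← Real.rpow_neg (by norm_num), mul_comm]
      congr 2
      ring
    rw [h6] at h5
    calc C * ((⌊x⌋₊ : ℕ) : ℝ) ^ (-(1 / 2 : ℝ) - c)
        ≤ C * (2 ^ (1 / 2 + c) * x ^ (-(1 / 2 : ℝ) - c)) := mul_le_mul_of_nonneg_left h5 hC.le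
      _ = C * 2 ^ (1 / 2 + c) * x ^ (-(1 / 2 : ℝ) - c) := by ring

theorem not_omega_of_small {f : ℕ → ℂ} {c C : ℝ} (hc : 0 < c) (hC : 0 < C)
    (hb : ∀ x : ℝ, 1 ≤ x → ‖partialSum f x‖ ≤ C * x ^ (-(1 / 2 : ℝ) - c)) : ¬ OmegaHalf f := by
  rintro ⟨c', hc', hinf⟩
  have h3 : Tendsto (fun y : ℝ => y ^ (-c)) atTop (𝓝 0) := tendsto_rpow_neg_atTop hc
  have h4 : ∀ᶠ y : ℝ in atTop, y ^ (-c) < c' / C := h3.eventually_lt_const (by positivity)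
  obtain ⟨X, hX⟩ := (h4.and (eventually_ge_atTop 1)).exists_forall_of_atTop
  obtain ⟨x, hXx, hx0, hx⟩ := hinf X
  obtain ⟨h5, h6⟩ := hX x hXx
  have h7 := hx.trans (hb x h6)
  rw [sub_eq_add_neg, Real.rpow_add hx0, Real.rpow_neg hx0.le, ← Real.sqrt_eq_rpow] at h7
  have hs : 0 < Real.sqrt x := Real.sqrt_pos.2 hx0
  have h8 : c' ≤ C * x ^ (-c) := by
    have h9 := mul_le_mul_of_nonneg_right h7 hs.le
    rw [div_mul_cancel₀ _ hs.ne'] at h9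
    have e : C * ((Real.sqrt x)⁻¹ * x ^ (-c)) * Real.sqrt x = C * x ^ (-c) := by
      field_simp
    rwa [e] at h9
  have h10 : C * x ^ (-c) < C * (c' / C) := mul_lt_mul_of_pos_left h5 hC
  rw [mul_div_cancel₀ _ hC.ne'] at h10
  linarith

theorem not_RH_of_infinite {η : ℝ} (hη : 0 < η) (h : (zerosRight (1 / 2 + η)).Infinite) :
    ¬ RiemannHypothesis := by
  intro hRH
  obtain ⟨s, hs0, hs1⟩ := h.nonempty
  have hs2 : s ≠ 1 := by
    rintro rfl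
    exact riemannZeta_ne_zero_of_one_le_re (le_refl _) hs0
  have := hRH s hs0 (by
    rintro ⟨n, hn⟩
    rw [hn] at hs1
    simp only [neg_mul, Complex.neg_re, Complex.mul_re, Complex.re_ofNat, Complex.add_re,
      Complex.natCast_re, Complex.one_re, Complex.im_ofNat, Complex.add_im,
      Complex.natCast_im, Complex.one_im, add_zero, mul_zero, sub_zero] at hs1
    have : (0 : ℝ) ≤ n := Nat.cast_nonneg n
    linarith) hs2
  linarith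

/-- An affirmative answer to Q1 implies that the Riemann hypothesis is false.  More precisely, for
every `ε > 0` there are `η₀, c > 0` such that:
(i) an affirmative answer to Q1, even only for the CMO functions with `|f(n)| ≤ n^(-1+ε)`, implies
that `ζ` has infinitely many zeros with real part `> 1/2 + η₀`, in particular that the Riemann
hypothesis is false;
(ii) if `ζ` has only finitely many zeros with real part `> 1/2 + η₀` (for instance if the Riemann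
hypothesis holds), then there is a real valued CMO function `f` with `|f(n)| ≤ n^(-1+ε)` for
`n ≥ 1` and `|S_f(x)| ≤ C x^(-1/2-c)` for all real `x ≥ 1`. -/
theorem result :
    ((∀ f : ℕ → ℂ, IsCMO f → OmegaHalf f) → ¬ RiemannHypothesis) ∧
    ∀ ε : ℝ, 0 < ε → ∃ η₀ c : ℝ, 0 < η₀ ∧ η₀ < 1 / 2 ∧ 0 < c ∧
    (KahaneSaias ε → (zerosRight (1 / 2 + η₀)).Infinite ∧ ¬ RiemannHypothesis) ∧
    ((zerosRight (1 / 2 + η₀)).Finite →
      ∃ (f : ℕ → ℝ) (C : ℝ), IsCMO (fun n => (f n : ℂ)) ∧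
        (∀ n : ℕ, 1 ≤ n → |f n| ≤ (n : ℝ) ^ (-1 + ε)) ∧ 0 < C ∧
        ∀ x : ℝ, 1 ≤ x → ‖partialSum (fun n => (f n : ℂ)) x‖ ≤ C * x ^ (-(1 / 2 : ℝ) - c)) := by
  have key : ∀ ε : ℝ, 0 < ε → ∃ η₀ c : ℝ, 0 < η₀ ∧ η₀ < 1 / 2 ∧ 0 < c ∧
    (KahaneSaias ε → (zerosRight (1 / 2 + η₀)).Infinite ∧ ¬ RiemannHypothesis) ∧
    ((zerosRight (1 / 2 + η₀)).Finite →
      ∃ (f : ℕ → ℝ) (C : ℝ), IsCMO (fun n => (f n : ℂ)) ∧
        (∀ n : ℕ, 1 ≤ n → |f n| ≤ (n : ℝ) ^ (-1 + ε)) ∧ 0 < C ∧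
        ∀ x : ℝ, 1 ≤ x → ‖partialSum (fun n => (f n : ℂ)) x‖ ≤ C * x ^ (-(1 / 2 : ℝ) - c)) := by
    intro ε hε
    obtain ⟨η₀, c, h0, h1, hc, hQ⟩ := Pool.Agent.Q27.QR.mainQ ε hε
    have hmain : (zerosRight (1 / 2 + η₀)).Finite → ∃ (f : ℕ → ℝ) (C : ℝ),
        IsCMO (fun n => (f n : ℂ)) ∧ (∀ n : ℕ, 1 ≤ n → |f n| ≤ (n : ℝ) ^ (-1 + ε)) ∧ 0 < C ∧
        ∀ x : ℝ, 1 ≤ x → ‖partialSum (fun n => (f n : ℂ)) x‖ ≤ C * x ^ (-(1 / 2 : ℝ) - c) :=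
      fun h => cmo_of_concl hc (hQ h)
    refine ⟨η₀, c, h0, h1, hc, fun hKS => ?_, hmain⟩
    have hinf : (zerosRight (1 / 2 + η₀)).Infinite := by
      intro hfin
      obtain ⟨f, C, hf, hfb, hC, hb⟩ := hmain hfin
      refine not_omega_of_small hc hC hb (hKS _ hf fun n hn => ?_)
      rw [Complex.norm_real]
      exact hfb n hn
    exact ⟨hinf, not_RH_of_infinite h0 hinf⟩
  refine ⟨fun hQ => ?_, key⟩
  obtain ⟨η₀, c, -, -, -, h, -⟩ := key 1 one_pos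
  exact (h fun f hf _ => hQ f hf).2

end Pool.Agent.Results.MP_768c9c_nt.ExcludesQuasiRH
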