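import Mathlib
import Pool.Agent.Q311.KS.G
import Pool.Agent.H280R3.MO.F

/-!
# Partial sums of completely multiplicative functions with values close to a disc at the primes

Let `f` be completely multiplicative. For a prime `p` let `ratio f p = |1 - √p f(p)| / (1 + 1 / √p)`; it is at
most `1` if and only if `f(p)` lies in the closed disc with centre `1 / √p` and radius `1 / √p + 1 / p`, which
contains all `z` with `|z| ≤ 1 / p` and all reals in `[0, 1 / √p]`, and has `-1 / p` on its boundary.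

We assume that `∑_p |f(p)| ^ 2 p ^ (1 - ε)` converges for every `ε > 0` and that `∑_p log⁺ (ratio f p)` converges.
Then `∑_{n ≤ x} f(n) = Ω(x ^ (-1/2))`, the conclusion of Q1. Moreover, if `√N |∑_{n ≤ N} f(n)| ≤ c` for all large
`N`, then `∑_p log (ratio f p)` converges absolutely and `c |ζ(1/2)| ∏_p ratio f p ≥ 1`.

Proof. Let `F(z) = ∑ n f(n) n ^ (-z)`. If the partial sums of `f` are `O(x ^ (-1/2))`, then `F` and the
corresponding series for the conjugate of `f` are analytic in `Re z > 1/2`. Multiply `(ζ(z)) ^ 2 F(z) F̄(z)` by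
the inverses of the Euler factors at the primes below `N` and by the product over the primes `p ≥ N` of
`(1 + c_p p ^ (-z))` times the inverse of the Euler factor, where `c_p = max(0, 2 + 2 Re (p f(p)))`. The last
product converges in `Re z > 1/2` and tends to `1` for `N → ∞`. The function obtained is the Dirichlet series
`∏_{p ≥ N} (1 + c_p p ^ (-z))` with non-negative coefficients and with first coefficient `1`, so that by Landau's
lemma it is at least `1` for real `z > 1/2`. For `N → ∞` and `z → 1/2` this gives the assertion.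
-/

set_option autoImplicit false

namespace Pool.Agent.Results.MP_768c9c_nt.LocalDiscConditions

open Filter Topology Finset

/-- `|1 - √p f(p)| / (1 + 1 / √p)` -/
noncomputable def ratio (f : ℕ → ℂ) (p : ℕ) : ℝ :=
  ‖1 - (Real.sqrt p : ℂ) * f p‖ / (1 + 1 / Real.sqrt p)

theorem result (f : ℕ → ℂ) (h1 : f 1 = 1)
    (hm : ∀ m n : ℕ, 1 ≤ m → 1 ≤ n → f (m * n) = f m * f n)
    (hA : ∀ ε : ℝ, 0 < ε → Summable fun p : Nat.Primes => ‖f p‖ ^ 2 * (p : ℝ) ^ (1 - ε))
    (hB : Summable fun p : Nat.Primes => Real.posLog (ratio f p)) :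
    (∃ c : ℝ, 0 < c ∧ ∀ M : ℕ, ∃ N : ℕ, M ≤ N ∧ 0 < N ∧
      c / Real.sqrt N ≤ ‖∑ n ∈ Icc 1 N, f n‖) ∧
    (∀ c : ℝ, 0 < c → (∀ᶠ N : ℕ in atTop, ‖∑ n ∈ Icc 1 N, f n‖ ≤ c / Real.sqrt N) →
      (∀ p : ℕ, p.Prime → 0 < ratio f p) ∧
      Summable (fun p : Nat.Primes => Real.log (ratio f p)) ∧
      Real.exp (-∑' p : Nat.Primes, Real.log (ratio f p)) ≤ c * ‖riemannZeta (1 / 2)‖) := by
  set g := H280R3.MO.toHom f h1 hm with hg
  have hgp : ∀ p : ℕ, p.Prime → g p = f p := fun p hp =>
    H280R3.MO.toHom_apply f h1 hm p hp.one_le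
  have hr : ∀ p : ℕ, p.Prime → Q311.KS.rat g p = ratio f p := by
    intro p hp
    unfold Q311.KS.rat ratio
    rw [hgp p hp]
  have hA' : Q311.KS.HA g := by
    intro ε hε
    refine (hA ε hε).congr fun p => ?_
    rw [hgp p p.2]
  have hB' : Summable (fun p : Nat.Primes => Q311.KS.dd g p) := by
    refine hB.congr fun p => ?_
    show Real.posLog (ratio f p) = Real.posLog (Q311.KS.rat g p)
    rw [hr p p.2]
  have main : ∀ c : ℝ, 0 < c → (∀ᶠ N : ℕ in atTop, ‖∑ n ∈ Icc 1 N, f n‖ ≤ c / Real.sqrt N) →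
      (∀ p : ℕ, p.Prime → 0 < ratio f p) ∧
      Summable (fun p : Nat.Primes => Real.log (ratio f p)) ∧
      Real.exp (-∑' p : Nat.Primes, Real.log (ratio f p)) ≤ c * ‖riemannZeta (1 / 2)‖ := by
    intro c hc h
    have h' : ∀ᶠ N : ℕ in atTop, ‖H280R3.MO.S g N‖ ≤ c * (N : ℝ) ^ (-(1 / 2) : ℝ) := by
      filter_upwards [h] with N hN
      rw [H280R3.MO.S_toHom f h1 hm N, Real.rpow_neg (by positivity), ← Real.sqrt_eq_rpow,
        ← div_eq_mul_inv]
      exact hN
    obtain ⟨a1, a2, a3⟩ := Q311.KS.core2 g hA' hB' c hc h'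
    have e : (fun p : Nat.Primes => Real.log (Q311.KS.rat g p)) =
        fun p : Nat.Primes => Real.log (ratio f p) := by
      funext p
      rw [hr p p.2]
    rw [e] at a2 a3
    exact ⟨fun p hp => by rw [← hr p hp]; exact a1 p hp, a2, a3⟩
  refine ⟨?_, main⟩
  by_contra hcon
  push Not at hcon
  set z := ‖riemannZeta (1 / 2)‖ with hz
  have hz0 : 0 ≤ z := norm_nonneg _
  set T := Real.exp (-∑' p : Nat.Primes, Real.log (ratio f p)) with hT
  have hT0 : 0 < T := Real.exp_pos _
  have hc : 0 < T / (z + 1) := by positivity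
  obtain ⟨M, hM⟩ := hcon _ hc
  have h2 := (main _ hc (by
    filter_upwards [eventually_ge_atTop (M + 1)] with N hN
    exact (hM N (by omega) (by omega)).le)).2.2
  have h3 : T / (z + 1) * z < T := by
    rw [div_mul_eq_mul_div, div_lt_iff₀ (by positivity)]
    nlinarith
  linarith

end Pool.Agent.Results.MP_768c9c_nt.LocalDiscConditions
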