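import Pool.Agent.Q312.CMO.Ab5

/-!
# MP_768c9c_nt: CMO functions bounded by the splitting function of an abelian field, with a zero
of maximal order

Let `H` be a subgroup of index `d` of `(ℤ/q)^*`, and let `r(p) = d` for the primes `p` whose class
modulo `q` is in `H`, and `r(p) = 0` for the other primes.  (If `K` is the abelian number field
which corresponds to `H`, then `r(p)` is the number of prime ideals of `K` of norm `p`, for the
primes `p` not dividing `q`.)  Let `κ > 0` and let `f` be completely multiplicative with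
`|f(p)| ≤ κ r(p)/p`, up to an error `e(p)` with `∑ √p e(p) < ∞`.  So the Dirichlet series
`F(s) = ∑ f(n) n^(-s)` is bounded below by `s^κ` for `s → 0+`.  Suppose that `κ ≤ 1` or that
`F(s)` behaves like `s^κ`, i.e. `∑ (κ r(p)/p + Re f(p)) < ∞`.

* If `κ` is not an integer the partial sums are not `O(x^(-β))` for any `β > 0`.
* If `κ = m` is an integer they are `Ω(x^(-1/2) (log x)^k)`, `k` the integral part of
  `(m^2 d + m)/2 - 1`.

So the conclusion of the question of Kahane and Saias holds for all these functions.  This contains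
the starting result `OmegaClass` (`q = 1`, `κ = 1`, up to primes with `f(p) ≥ 0`).

The proof: if the partial sums are small then `F(s)` is holomorphic at `0` and `F(0) = 0`, so that
`κ` is the order of this zero.  For `κ = m` the function `F(s) F'(s) Z(s)^(2m)`, `F'` the series
with conjugate coefficients and `Z(s)` the product of the functions `L(s + 1, χ)`, `χ` trivial on
`H`, divided by a function which is zero free in `Re s > -1/2`, is the exponential of a Dirichlet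
series with the coefficients `2 (m r(p)/p + Re f(p)) ≥ 0` at the primes.  By the theorem of Landau
this series converges for `Re s > -1/2`.  So `f(p)` is close to `-m r(p)/p`, and the zero free
function grows at least like `(σ + 1/2)^(-(m^2 d + m))` for `σ → -1/2`.
-/

set_option autoImplicit false

open Finset Filter

namespace Pool.Agent.Results.MP_768c9c_nt.MaximalOrder

open Pool.Agent.Q312.CMO Pool.H232R3

/-- Let `H` be a subgroup of `(ℤ/q)^*` of index `d`, `r(p) = d` if the class of the prime `p` is in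
`H` and `r(p) = 0` otherwise, `κ > 0`, and let `f` be completely multiplicative with
`∑_p √p max(|f(p)| - κ r(p)/p, 0) < ∞`. Suppose that `κ ≤ 1` or that `∑_p (κ r(p)/p + Re f(p))`
converges. (1) If `κ` is not an integer then `S_f(N)` is not `O(N^(-β))`, for all `β > 0`.
(2) If `κ = m` is an integer, then `S_f(N) = Ω(N^(-1/2) (log N)^k)`, `k` the integral part of
`(m^2 d + m)/2 - 1`. (3) `S_f(N) = Ω(N^(-1/2))`. -/
theorem result (q : ℕ) [NeZero q] (H : Subgroup (ZMod q)ˣ) (f : ℕ → ℂ) (h1 : f 1 = 1)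
    (hmul : ∀ m n : ℕ, 0 < m → 0 < n → f (m * n) = f m * f n) (κ : ℝ) (hκ : 0 < κ)
    (hsize : Summable fun p : Nat.Primes => Real.sqrt p * max (‖f p‖ - κ * rr H p / p) 0)
    (hord : κ ≤ 1 ∨ Summable fun p : Nat.Primes => κ * rr H p / p + (f p).re) :
    ((∀ m : ℕ, κ ≠ m) → ∀ β : ℝ, 0 < β → ∀ (A : ℝ) (M : ℕ), ∃ N : ℕ, M ≤ N ∧ 0 < N ∧
      A * (N : ℝ) ^ (-β) ≤ ‖∑ n ∈ Finset.Icc 1 N, f n‖) ∧
    (∀ m : ℕ, κ = m → ∃ c : ℝ, 0 < c ∧ ∀ M : ℕ, ∃ N : ℕ, M ≤ N ∧ 0 < N ∧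
      c * ((N : ℝ) ^ (-(1/2) : ℝ) * Real.log N ^ ((m ^ 2 * H.index + m) / 2 - 1)) ≤
        ‖∑ n ∈ Finset.Icc 1 N, f n‖) ∧
    (∃ c : ℝ, 0 < c ∧ ∀ M : ℕ, ∃ N : ℕ, M ≤ N ∧ 0 < N ∧
      c / Real.sqrt (N : ℝ) ≤ ‖∑ n ∈ Finset.Icc 1 N, f n‖) := by
  have hf : CM f := ⟨h1, hmul⟩
  have hA : (∀ m : ℕ, κ ≠ m) → ∀ β : ℝ, 0 < β → ∀ (A : ℝ) (M : ℕ), ∃ N : ℕ, M ≤ N ∧ 0 < N ∧
      A * (N : ℝ) ^ (-β) ≤ ‖∑ n ∈ Finset.Icc 1 N, f n‖ := fun hint β hβ A M =>
    nonint_main3 hκ.le hsize hf hord (fun m _ => hint m) hκ β hβ A M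
  have hB : ∀ m : ℕ, κ = m → ∃ c : ℝ, 0 < c ∧ ∀ M : ℕ, ∃ N : ℕ, M ≤ N ∧ 0 < N ∧
      c * ((N : ℝ) ^ (-(1/2) : ℝ) * Real.log N ^ ((m ^ 2 * H.index + m) / 2 - 1)) ≤
        ‖∑ n ∈ Finset.Icc 1 N, f n‖ := by
    intro m hκm
    subst hκm
    have hm : 1 ≤ m := by
      have : 0 < m := by exact_mod_cast hκ
      omega
    by_contra hcon
    push Not at hcon
    have hi : 1 ≤ H.index := Nat.one_le_iff_ne_zero.mpr Subgroup.index_ne_zero_of_finite
    have h2 : 1 ≤ m ^ 2 * H.index := Nat.mul_pos (pow_pos hm 2) hi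
    refine int_main3 (H' := H) hf hm hsize hord ((m ^ 2 * H.index + m) / 2 - 1) (by omega) ?_
    intro ε hε
    obtain ⟨M, hM⟩ := hcon ε hε
    exact ⟨M + 1, fun N hN => (hM N (by omega) (by omega)).le⟩
  refine ⟨hA, hB, ?_⟩
  have hsq : ∀ N : ℕ, (N : ℝ) ^ (-(1/2) : ℝ) = (Real.sqrt N)⁻¹ := by
    intro N
    rw [Real.rpow_neg (Nat.cast_nonneg N), ← Real.sqrt_eq_rpow]
  by_cases hint : ∀ m : ℕ, κ ≠ m
  · refine ⟨1, one_pos, fun M => ?_⟩
    obtain ⟨N, h2, h3, h4⟩ := hA hint (1/2) (by norm_num) 1 M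
    refine ⟨N, h2, h3, ?_⟩
    rw [hsq, ← div_eq_mul_inv] at h4
    exact h4
  · push Not at hint
    obtain ⟨m, hm⟩ := hint
    obtain ⟨c, hc, h2⟩ := hB m hm
    refine ⟨c, hc, fun M => ?_⟩
    obtain ⟨N, h3, h4, h5⟩ := h2 (max M 3)
    refine ⟨N, (le_max_left _ _).trans h3, h4, ?_⟩
    have hN3 : (3 : ℝ) ≤ N := by exact_mod_cast (le_max_right M 3).trans h3
    have hlog : 1 ≤ Real.log N := by
      rw [Real.le_log_iff_exp_le (by linarith)]
      have := Real.exp_one_lt_d9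
      linarith
    have hlp : (1 : ℝ) ≤ Real.log N ^ ((m ^ 2 * H.index + m) / 2 - 1) := one_le_pow₀ hlog
    refine le_trans ?_ h5
    rw [hsq, div_eq_mul_inv]
    have : 0 ≤ (Real.sqrt (N : ℝ))⁻¹ := by positivity
    have h6 : (Real.sqrt (N : ℝ))⁻¹ ≤ (Real.sqrt (N : ℝ))⁻¹ *
        Real.log N ^ ((m ^ 2 * H.index + m) / 2 - 1) := by nlinarith
    gcongr

end Pool.Agent.Results.MP_768c9c_nt.MaximalOrder
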