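import Pool.Agent.Q312.CMO.Rn6

/-!
# MP_768c9c_nt: random completely multiplicative functions

Let `X_n` be independent random variables with `|X_n| ≤ K` and the same mean `E X_p = κ` for all
primes `p`, and let `f` be the random completely multiplicative function with `f(p) = -X_p/p`.
Almost surely the partial sums `S(N)` of `f` are `Ω(N^(-1/2))`. More precisely, almost surely

* if `κ` is not a positive integer, `S(N)` is not `O(N^(-β))` for any `β > 0`;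
* if `κ = m ≥ 1` is an integer, `S(N) = Ω(N^(-1/2) (log N)^((m-1)(m+2)/2))`.

So the conclusion of the question of Kahane and Saias holds almost surely for these functions.
Here `K` may be larger than `|κ|`: the functions are not bounded by `κ/p` at the primes, and (as
soon as the variables `X_p` do not converge to `κ`) they are not close to any deterministic
function.

The proof: by the inequality of Hoeffding, almost surely the series `∑_p (X_p - κ)/p` converges so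
fast that `∑_p (X_p - κ) p^(-1-s)` continues to `Re s > -1/2`. If `S(N) = O(N^(-β))` then
`F(s) = ∑ f(n) n^(-s)` is holomorphic at `0`, and comparison with `ζ(1+s)^(-κ)` shows that `κ` is
the order of its zero. Let `κ = m`. If `S(N)` is `o(N^(-1/2) (log N)^((m-1)(m+2)/2))`, then `F(s)`
is `o((s + 1/2)^(-(m^2+m)/2))` for `s → -1/2+`. On the other hand the expectation of the normalised
reciprocal of `F` is bounded, since the expectations of its factors are `1 + O(p^(-3(1+s)))`; by the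
lemma of Fatou, almost surely it does not tend to infinity.
-/

set_option autoImplicit false

open Finset Filter MeasureTheory ProbabilityTheory

namespace Pool.Agent.Results.MP_768c9c_nt.RandomFunctions

open Pool.Agent.Q312.CMO Pool.H232R3

/-- Let `X_n` be independent random variables, bounded by `K`, with `E X_p = κ` for the primes `p`,
and let `f` be the random completely multiplicative function with `f(p) = -X_p/p`; let `S(N)` be its
partial sums. Almost surely: (1) if `κ` is not a positive integer, `S(N)` is not `O(N^(-β))` for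
any `β > 0`; (2) if `κ = m ≥ 1` is an integer, `S(N) = Ω(N^(-1/2) (log N)^((m-1)(m+2)/2))`;
(3) `S(N) = Ω(N^(-1/2))`. -/
theorem result {Ω : Type*} [MeasurableSpace Ω] (μ : Measure Ω) [IsProbabilityMeasure μ]
    (κ K : ℝ) (X : ℕ → Ω → ℝ) (hX : ∀ n, Measurable (X n))
    (hind : iIndepFun X μ) (hK : ∀ n ω, |X n ω| ≤ K)
    (hE : ∀ p : ℕ, p.Prime → ∫ ω, X p ω ∂μ = κ)
    (f : Ω → ℕ → ℂ) (h1 : ∀ ω, f ω 1 = 1)
    (hmul : ∀ ω, ∀ a b : ℕ, 0 < a → 0 < b → f ω (a * b) = f ω a * f ω b)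
    (hf : ∀ ω, ∀ p : ℕ, p.Prime → f ω p = ((-(X p ω / p) : ℝ) : ℂ)) :
    ((∀ m : ℕ, 1 ≤ m → κ ≠ m) → ∀ᵐ ω ∂μ, ∀ β : ℝ, 0 < β → ∀ (A : ℝ) (M : ℕ), ∃ N : ℕ,
      M ≤ N ∧ 0 < N ∧ A * (N : ℝ) ^ (-β) ≤ ‖∑ n ∈ Finset.Icc 1 N, f ω n‖) ∧
    (∀ m : ℕ, 1 ≤ m → κ = m → ∀ᵐ ω ∂μ, ∃ c : ℝ, 0 < c ∧ ∀ M : ℕ, ∃ N : ℕ, M ≤ N ∧ 0 < N ∧
      c * ((N : ℝ) ^ (-(1/2) : ℝ) * Real.log N ^ ((m - 1) * (m + 2) / 2)) ≤
        ‖∑ n ∈ Finset.Icc 1 N, f ω n‖) ∧
    (∀ᵐ ω ∂μ, ∃ c : ℝ, 0 < c ∧ ∀ M : ℕ, ∃ N : ℕ, M ≤ N ∧ 0 < N ∧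
      c / Real.sqrt (N : ℝ) ≤ ‖∑ n ∈ Finset.Icc 1 N, f ω n‖) := by
  have hf' : ∀ ω, ∀ p : ℕ, p.Prime → f ω p = -((X p ω / p : ℝ) : ℂ) :=
    fun ω p hp => by rw [hf ω p hp]; push_cast; ring
  have hA : (∀ m : ℕ, 1 ≤ m → κ ≠ m) → ∀ᵐ ω ∂μ, ∀ β : ℝ, 0 < β → ∀ (A : ℝ) (M : ℕ), ∃ N : ℕ,
      M ≤ N ∧ 0 < N ∧ A * (N : ℝ) ^ (-β) ≤ ‖∑ n ∈ Finset.Icc 1 N, f ω n‖ := fun hint =>
    random_nonint hX hind hK hE f (fun ω => ⟨h1 ω, hmul ω⟩) hf' hint
  have hB : ∀ m : ℕ, 1 ≤ m → κ = m → ∀ᵐ ω ∂μ, ∃ c : ℝ, 0 < c ∧ ∀ M : ℕ, ∃ N : ℕ,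
      M ≤ N ∧ 0 < N ∧ c * ((N : ℝ) ^ (-(1/2) : ℝ) * Real.log N ^ ((m - 1) * (m + 2) / 2)) ≤
        ‖∑ n ∈ Finset.Icc 1 N, f ω n‖ := by
    intro m hm hκm
    subst hκm
    have hn : 2 * ((m - 1) * (m + 2) / 2 + 1) = m ^ 2 + m := by
      obtain ⟨k, rfl⟩ : ∃ k, m = k + 1 := ⟨m - 1, by omega⟩
      have h2 : 2 ∣ (k + 1 - 1) * (k + 1 + 2) := by
        have h3 : (k + 1 - 1) * (k + 1 + 2) = k * (k + 1) + 2 * k := by
          rw [Nat.add_sub_cancel]; ring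
        rw [h3]
        exact dvd_add (Nat.even_mul_succ_self k).two_dvd (dvd_mul_right 2 k)
      rw [mul_add, Nat.mul_div_cancel' h2, Nat.add_sub_cancel]
      ring
    have hmain := random_main hX hind hK hE f (fun ω => ⟨h1 ω, hmul ω⟩) hf' _ hn
    filter_upwards [hmain] with ω hω
    by_contra hcon
    push Not at hcon
    refine hω ?_
    intro ε hε
    obtain ⟨M, hM⟩ := hcon ε hε
    exact ⟨M + 1, fun N hN => (hM N (by omega) (by omega)).le⟩
  refine ⟨hA, hB, ?_⟩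
  have hsq : ∀ N : ℕ, (N : ℝ) ^ (-(1/2) : ℝ) = (Real.sqrt N)⁻¹ := by
    intro N
    rw [Real.rpow_neg (Nat.cast_nonneg N), ← Real.sqrt_eq_rpow]
  by_cases hint : ∀ m : ℕ, 1 ≤ m → κ ≠ m
  · filter_upwards [hA hint] with ω hω
    refine ⟨1, one_pos, fun M => ?_⟩
    obtain ⟨N, h2, h3, h4⟩ := hω (1/2) (by norm_num) 1 M
    refine ⟨N, h2, h3, ?_⟩
    rw [hsq, ← div_eq_mul_inv] at h4
    exact h4
  · push Not at hint
    obtain ⟨m, hm1, hm⟩ := hint
    filter_upwards [hB m hm1 hm] with ω hω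
    obtain ⟨c, hc, h2⟩ := hω
    refine ⟨c, hc, fun M => ?_⟩
    obtain ⟨N, h3, h4, h5⟩ := h2 (max M 3)
    refine ⟨N, (le_max_left _ _).trans h3, h4, ?_⟩
    have hN3 : (3 : ℝ) ≤ N := by exact_mod_cast (le_max_right M 3).trans h3
    have hlog : 1 ≤ Real.log N := by
      rw [Real.le_log_iff_exp_le (by linarith)]
      have := Real.exp_one_lt_d9
      linarith
    have hlp : (1 : ℝ) ≤ Real.log N ^ ((m - 1) * (m + 2) / 2) := one_le_pow₀ hlog
    refine le_trans ?_ h5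
    rw [hsq, div_eq_mul_inv]
    have : 0 ≤ (Real.sqrt (N : ℝ))⁻¹ := by positivity
    have h6 : (Real.sqrt (N : ℝ))⁻¹ ≤ (Real.sqrt (N : ℝ))⁻¹ *
        Real.log N ^ ((m - 1) * (m + 2) / 2) := by nlinarith
    gcongr

end Pool.Agent.Results.MP_768c9c_nt.RandomFunctions
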